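import Mathlib

/-!
Definitions for `MP_74be22_co` (bounded transversals).
-/

namespace Pool.Agent.H1.BT

/-- The family `A` has a `C`-bounded transversal: a set meeting every member in at least one and at
most `C` points. -/
def HasTransversal {X ι : Type} [DecidableEq X] (A : ι → Finset X) (C : ℕ) : Prop :=
  ∃ S : Finset X, ∀ k, 1 ≤ (A k ∩ S).card ∧ (A k ∩ S).card ≤ C

/-- The statement of Q2: for all `c₁, c₂ > 0` there is an integer `C` such that every finite family
of subsets of an `n`-element set with `|A_k| > c₁ √n` and `|A_k ∩ A_l| ≤ c₂` for `k ≠ l` has a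
`C`-bounded transversal. -/
def Q2Statement : Prop :=
  ∀ c₁ : ℝ, 0 < c₁ → ∀ c₂ : ℝ, 0 < c₂ → ∃ C : ℕ, 1 ≤ C ∧
    ∀ (X ι : Type) [Fintype X] [DecidableEq X] [Fintype ι] (A : ι → Finset X),
      (∀ k, c₁ * Real.sqrt (Fintype.card X) < ((A k).card : ℝ)) →
      (∀ k l, k ≠ l → ((A k ∩ A l).card : ℝ) ≤ c₂) → HasTransversal A C

/-- The statement of Q1: the same with pairwise intersections of at most one element. -/
def Q1Statement : Prop :=
  ∀ c₁ : ℝ, 0 < c₁ → ∃ C : ℕ, 1 ≤ C ∧
    ∀ (X ι : Type) [Fintype X] [DecidableEq X] [Fintype ι] (A : ι → Finset X),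
      (∀ k, c₁ * Real.sqrt (Fintype.card X) < ((A k).card : ℝ)) →
      (∀ k l, k ≠ l → (A k ∩ A l).card ≤ 1) → HasTransversal A C

end Pool.Agent.H1.BT
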