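import Mathlib
import Pool.Agent.H1.BT.Defs

/-!
The counting argument.
-/

namespace Pool.Agent.H1.BT

open Finset Classical

variable {p : ℕ} [Fact p.Prime] {C : ℕ}

/-- the part of `x` modulo `2C+2` -/
def part (C : ℕ) (x : ZMod p) : Fin (2 * C + 2) := ⟨x.val % (2 * C + 2), Nat.mod_lt _ (by omega)⟩

/-- choices of `C+1` parts -/
abbrev Tau (C : ℕ) : Type := {T : Finset (Fin (2 * C + 2)) // T.card = C + 1}

def vert (x : ZMod p) : Finset (ZMod p × ZMod p) := univ.filter (fun q => q.1 = x)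

def lset (C : ℕ) (l : ZMod p × ZMod p) (T : Tau C) : Finset (ZMod p × ZMod p) :=
  univ.filter (fun q => q.2 = l.1 * q.1 + l.2 ∧ part C q.1 ∈ T.1)

def fam (C : ℕ) (ω : ZMod p × ZMod p → Tau C) :
    (ZMod p ⊕ (ZMod p × ZMod p)) → Finset (ZMod p × ZMod p)
  | Sum.inl x => vert x
  | Sum.inr l => lset C l (ω l)

theorem mem_vert (x : ZMod p) (q) : q ∈ vert x ↔ q.1 = x := by simp [vert]

theorem mem_lset (l : ZMod p × ZMod p) (T : Tau C) (q) :
    q ∈ lset C l T ↔ q.2 = l.1 * q.1 + l.2 ∧ part C q.1 ∈ T.1 := by simp [lset]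

theorem pairwise (ω : ZMod p × ZMod p → Tau C) (k l) (hkl : k ≠ l) :
    (fam C ω k ∩ fam C ω l).card ≤ 1 := by
  rw [Finset.card_le_one]
  intro q hq q' hq'
  rw [Finset.mem_inter] at hq hq'
  rcases k with x | u <;> rcases l with y | v
  · exfalso
    simp only [fam, mem_vert] at hq
    exact hkl (by rw [← hq.1, hq.2])
  · simp only [fam, mem_vert, mem_lset] at hq hq'
    have h1 : q.1 = q'.1 := by rw [hq.1, hq'.1]
    exact Prod.ext h1 (by rw [hq.2.1, hq'.2.1, h1])
  · simp only [fam, mem_vert, mem_lset] at hq hq'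
    have h1 : q.1 = q'.1 := by rw [hq.2, hq'.2]
    exact Prod.ext h1 (by rw [hq.1.1, hq'.1.1, h1])
  · simp only [fam, mem_lset] at hq hq'
    have e1 : u.1 * q.1 + u.2 = v.1 * q.1 + v.2 := by rw [← hq.1.1, ← hq.2.1]
    have e2 : u.1 * q'.1 + u.2 = v.1 * q'.1 + v.2 := by rw [← hq'.1.1, ← hq'.2.1]
    have e3 : (u.1 - v.1) * (q.1 - q'.1) = 0 := by linear_combination e1 - e2
    rcases mul_eq_zero.mp e3 with h | h
    · exfalso
      have h1 : u.1 = v.1 := sub_eq_zero.mp h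
      have h2 : u.2 = v.2 := by
        rw [h1] at e1
        exact add_left_cancel e1
      exact hkl (by rw [Prod.ext h1 h2])
    · have h1 : q.1 = q'.1 := sub_eq_zero.mp h
      exact Prod.ext h1 (by rw [hq.1.1, hq'.1.1, h1])

theorem card_vert (x : ZMod p) : (vert x).card = p := by
  have h : vert x = (univ : Finset (ZMod p)).image (fun y => (x, y)) := by
    ext q
    rw [mem_vert, Finset.mem_image]
    constructor
    · intro h; exact ⟨q.2, Finset.mem_univ _, by rw [← h]⟩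
    · rintro ⟨y, _, rfl⟩; rfl
  rw [h, Finset.card_image_of_injective _ (fun a b hab => congrArg Prod.snd hab),
    Finset.card_univ, ZMod.card]

theorem card_lset (hp : 2 * (2 * C + 2) ≤ p) (l : ZMod p × ZMod p) (T : Tau C) :
    p < 4 * (lset C l T).card := by
  have hpp : 0 < p := by omega
  obtain ⟨w, hw⟩ : ∃ w, w = p / (2 * C + 2) := ⟨_, rfl⟩
  have hw1 : (2 * C + 2) * w ≤ p := by rw [hw]; exact Nat.mul_div_le p _
  have hw2 : p < (2 * C + 2) * w + (2 * C + 2) := by
    rw [hw]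
    have := Nat.lt_mul_div_succ p (show 0 < 2 * C + 2 by omega)
    rw [Nat.mul_add, Nat.mul_one] at this
    exact this
  have hinj : ((T.1 ×ˢ (univ : Finset (Fin w)))).card ≤ (lset C l T).card := by
    have hval : ∀ (t : Fin (2 * C + 2)) (j : Fin w), t.1 + (2 * C + 2) * j.1 < p := by
      intro t j
      have h1 := t.2
      have h2 : j.1 + 1 ≤ w := j.2
      have h3 : (2 * C + 2) * (j.1 + 1) ≤ (2 * C + 2) * w := Nat.mul_le_mul_left _ h2
      have h4 : (2 * C + 2) * (j.1 + 1) = (2 * C + 2) * j.1 + (2 * C + 2) := by ring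
      omega
    refine Finset.card_le_card_of_injOn
      (fun q => (((q.1.1 + (2 * C + 2) * q.2.1 : ℕ) : ZMod p),
        l.1 * ((q.1.1 + (2 * C + 2) * q.2.1 : ℕ) : ZMod p) + l.2)) ?_ ?_
    · intro q hq
      rw [Finset.mem_coe, Finset.mem_product] at hq
      rw [Finset.mem_coe, mem_lset]
      refine ⟨rfl, ?_⟩
      have e : part C ((q.1.1 + (2 * C + 2) * q.2.1 : ℕ) : ZMod p) = q.1 := by
        unfold part
        apply Fin.ext
        change (((q.1.1 + (2 * C + 2) * q.2.1 : ℕ) : ZMod p)).val % (2 * C + 2) = q.1.1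
        rw [ZMod.val_natCast_of_lt (hval q.1 q.2), Nat.add_mul_mod_self_left,
          Nat.mod_eq_of_lt q.1.2]
      change part C ((q.1.1 + (2 * C + 2) * q.2.1 : ℕ) : ZMod p) ∈ T.1
      rw [e]
      exact hq.1
    · intro q _ q' _ h
      have h1 := congrArg Prod.fst h
      have h2 : (((q.1.1 + (2 * C + 2) * q.2.1 : ℕ) : ZMod p)).val
          = (((q'.1.1 + (2 * C + 2) * q'.2.1 : ℕ) : ZMod p)).val := congrArg ZMod.val h1
      rw [ZMod.val_natCast_of_lt (hval q.1 q.2), ZMod.val_natCast_of_lt (hval q'.1 q'.2)] at h2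
      have h3 : q.1.1 = q'.1.1 := by
        have := congrArg (fun n => n % (2 * C + 2)) h2
        simpa [Nat.add_mul_mod_self_left, Nat.mod_eq_of_lt q.1.2, Nat.mod_eq_of_lt q'.1.2] using this
      have h4 : (2 * C + 2) * q.2.1 = (2 * C + 2) * q'.2.1 := by omega
      have h5 : q.2.1 = q'.2.1 := Nat.eq_of_mul_eq_mul_left (by omega) h4
      exact Prod.ext (Fin.ext h3) (Fin.ext h5)
  rw [Finset.card_product, T.2, Finset.card_univ, Fintype.card_fin] at hinj
  have h6 : (2 * C + 2) * w = 2 * ((C + 1) * w) := by ring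
  omega

/-- the set with code `s` -/
def codeSet (s : ZMod p → Fin C → ZMod p) : Finset (ZMod p × ZMod p) :=
  univ.filter (fun q => ∃ i, s q.1 i = q.2)

theorem exists_fail (S : Finset (ZMod p × ZMod p)) (l : ZMod p × ZMod p) :
    ∃ T : Tau C, ¬ (1 ≤ (lset C l T ∩ S).card ∧ (lset C l T ∩ S).card ≤ C) := by
  let P : Finset (Fin (2 * C + 2)) :=
    (S.filter (fun q => q.2 = l.1 * q.1 + l.2)).image (fun q => part C q.1)
  rcases le_total P.card (C + 1) with h | h
  · have hc : C + 1 ≤ (Pᶜ).card := by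
      rw [Finset.card_compl, Fintype.card_fin]; omega
    obtain ⟨T, hT, hTc⟩ := Finset.exists_subset_card_eq hc
    refine ⟨⟨T, hTc⟩, fun hgood => ?_⟩
    obtain ⟨q, hq⟩ := Finset.card_pos.mp hgood.1
    rw [Finset.mem_inter, mem_lset] at hq
    have h1 : part C q.1 ∈ P := Finset.mem_image.mpr ⟨q, Finset.mem_filter.mpr ⟨hq.2, hq.1.1⟩, rfl⟩
    exact (Finset.mem_compl.mp (hT hq.1.2)) h1
  · obtain ⟨T, hT, hTc⟩ := Finset.exists_subset_card_eq h
    refine ⟨⟨T, hTc⟩, fun hgood => ?_⟩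
    have hsub : T ⊆ (lset C l ⟨T, hTc⟩ ∩ S).image (fun q => part C q.1) := by
      intro t ht
      obtain ⟨q, hq, rfl⟩ := Finset.mem_image.mp (hT ht)
      rw [Finset.mem_filter] at hq
      exact Finset.mem_image.mpr ⟨q, Finset.mem_inter.mpr ⟨(mem_lset _ _ _).mpr ⟨hq.2, ht⟩, hq.1⟩,
        rfl⟩
    have h1 := (Finset.card_le_card hsub).trans Finset.card_image_le
    rw [hTc] at h1
    have := hgood.2
    omega

theorem exists_omega (hlt : (p ^ C) ^ p * (Fintype.card (Tau C) - 1) ^ (p * p)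
      < Fintype.card (Tau C) ^ (p * p)) :
    ∃ ω : ZMod p × ZMod p → Tau C, ∀ s : ZMod p → Fin C → ZMod p, ∃ l,
      ¬ (1 ≤ (lset C l (ω l) ∩ codeSet s).card ∧ (lset C l (ω l) ∩ codeSet s).card ≤ C) := by
  let good : (ZMod p → Fin C → ZMod p) → (ZMod p × ZMod p) → Finset (Tau C) := fun s l =>
    univ.filter (fun T => 1 ≤ (lset C l T ∩ codeSet s).card ∧ (lset C l T ∩ codeSet s).card ≤ C)
  have hgood : ∀ s l, (good s l).card ≤ Fintype.card (Tau C) - 1 := by
    intro s l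
    obtain ⟨T, hT⟩ := exists_fail (C := C) (codeSet s) l
    have : T ∉ good s l := fun h => hT (Finset.mem_filter.mp h).2
    have := Finset.card_lt_univ_of_notMem this
    omega
  let bad : (ZMod p → Fin C → ZMod p) → Finset ((ZMod p × ZMod p) → Tau C) := fun s =>
    Fintype.piFinset (good s)
  have hbad : ∀ s, (bad s).card ≤ (Fintype.card (Tau C) - 1) ^ (p * p) := by
    intro s
    simp only [bad]
    rw [Fintype.card_piFinset]
    refine (Finset.prod_le_pow_card _ _ _ (fun l _ => hgood s l)).trans ?_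
    rw [Finset.card_univ, Fintype.card_prod, ZMod.card]
  have hU : ((univ : Finset (ZMod p → Fin C → ZMod p)).biUnion bad).card
      < Fintype.card ((ZMod p × ZMod p) → Tau C) := by
    refine (Finset.card_biUnion_le_card_mul _ _ _ (fun s _ => hbad s)).trans_lt ?_
    rw [Finset.card_univ, Fintype.card_fun, Fintype.card_fun, Fintype.card_fun, Fintype.card_prod,
      ZMod.card, Fintype.card_fin]
    exact hlt
  obtain ⟨ω, hω⟩ : ∃ ω, ω ∉ (univ : Finset (ZMod p → Fin C → ZMod p)).biUnion bad := by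
    by_contra hcon
    push Not at hcon
    have : (univ : Finset (ZMod p → Fin C → ZMod p)).biUnion bad = univ :=
      Finset.eq_univ_iff_forall.mpr hcon
    rw [this, Finset.card_univ] at hU
    exact lt_irrefl _ hU
  refine ⟨ω, fun s => ?_⟩
  by_contra hcon
  push Not at hcon
  apply hω
  rw [Finset.mem_biUnion]
  refine ⟨s, Finset.mem_univ _, ?_⟩
  simp only [bad, Fintype.mem_piFinset]
  intro l
  exact Finset.mem_filter.mpr ⟨Finset.mem_univ _, hcon l⟩

theorem exists_code (S : Finset (ZMod p × ZMod p))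
    (hS : ∀ x, 1 ≤ (vert x ∩ S).card ∧ (vert x ∩ S).card ≤ C) :
    ∃ s : ZMod p → Fin C → ZMod p, codeSet s = S := by
  have h : ∀ x, ∃ g : Fin C → ZMod p, ∀ y, (∃ i, g i = y) ↔ (x, y) ∈ S := by
    intro x
    let U : Finset (ZMod p) := univ.filter (fun y => (x, y) ∈ S)
    have hU : (vert x ∩ S).card = U.card := by
      have e : vert x ∩ S = U.image (fun y => (x, y)) := by
        ext q
        rw [Finset.mem_inter, mem_vert, Finset.mem_image]
        constructor
        · rintro ⟨h1, h2⟩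
          refine ⟨q.2, Finset.mem_filter.mpr ⟨Finset.mem_univ _, ?_⟩, ?_⟩
          · rw [← h1]; exact h2
          · rw [← h1]
        · rintro ⟨y, hy, rfl⟩
          exact ⟨rfl, (Finset.mem_filter.mp hy).2⟩
      rw [e, Finset.card_image_of_injective _ (fun a b hab => congrArg Prod.snd hab)]
    have h1 := hS x
    rw [hU] at h1
    obtain ⟨y0, hy0⟩ := Finset.card_pos.mp h1.1
    let e := U.equivFin
    refine ⟨fun i => if h : i.1 < U.card then (e.symm ⟨i.1, h⟩).1 else y0, fun y => ?_⟩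
    constructor
    · rintro ⟨i, rfl⟩
      by_cases hi : i.1 < U.card
      · simp only [hi, dif_pos]
        exact (Finset.mem_filter.mp (e.symm ⟨i.1, hi⟩).2).2
      · simp only [hi, dif_neg, not_false_iff]
        exact (Finset.mem_filter.mp hy0).2
    · intro hy
      have hyU : y ∈ U := Finset.mem_filter.mpr ⟨Finset.mem_univ _, hy⟩
      refine ⟨⟨(e ⟨y, hyU⟩).1, lt_of_lt_of_le (e ⟨y, hyU⟩).2 h1.2⟩, ?_⟩
      have hlt : (e ⟨y, hyU⟩).1 < U.card := (e ⟨y, hyU⟩).2
      simp only [hlt, dif_pos]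
      have : (⟨(e ⟨y, hyU⟩).1, hlt⟩ : Fin U.card) = e ⟨y, hyU⟩ := rfl
      rw [this, Equiv.symm_apply_apply]
  choose s hs using h
  refine ⟨s, ?_⟩
  ext q
  rw [codeSet, Finset.mem_filter]
  exact ⟨fun h => (hs q.1 q.2).mp h.2, fun h => ⟨Finset.mem_univ _, (hs q.1 q.2).mpr h⟩⟩

theorem ineq (C N : ℕ) (hN : 1 ≤ N) :
    ∃ p0 : ℕ, ∀ p : ℕ, p0 ≤ p → 0 < p → (p ^ C) ^ p * (N - 1) ^ (p * p) < N ^ (p * p) := by
  have hNr : (0 : ℝ) < N := by exact_mod_cast hN
  set r : ℝ := ((N : ℝ) - 1) / N with hr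
  have hr0 : 0 ≤ r := by
    apply div_nonneg _ hNr.le
    have : (1 : ℝ) ≤ N := by exact_mod_cast hN
    linarith
  have hr1 : r < 1 := by rw [hr, div_lt_one hNr]; linarith
  have ht := tendsto_pow_const_mul_const_pow_of_abs_lt_one C (r := r) (by
    rw [abs_of_nonneg hr0]; exact hr1)
  have hev := (ht.eventually (gt_mem_nhds (show (0 : ℝ) < 1 by norm_num)))
  obtain ⟨p0, hp0⟩ := Filter.eventually_atTop.mp hev
  refine ⟨p0, fun p hp hpos => ?_⟩
  have h1 := hp0 p hp
  have h2 : (p : ℝ) ^ C * ((N : ℝ) - 1) ^ p < (N : ℝ) ^ p := by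
    have h3 : (0 : ℝ) < (N : ℝ) ^ p := pow_pos hNr p
    have h4 : (p : ℝ) ^ C * r ^ p * (N : ℝ) ^ p < 1 * (N : ℝ) ^ p :=
      mul_lt_mul_of_pos_right h1 h3
    rw [one_mul, mul_assoc, ← mul_pow] at h4
    have h5 : r * N = (N : ℝ) - 1 := by rw [hr]; field_simp
    rw [h5] at h4
    exact h4
  have h3 : p ^ C * (N - 1) ^ p < N ^ p := by
    have : (((p ^ C * (N - 1) ^ p : ℕ)) : ℝ) < ((N ^ p : ℕ) : ℝ) := by
      push_cast [Nat.cast_sub hN]
      exact h2
    exact_mod_cast this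
  calc (p ^ C) ^ p * (N - 1) ^ (p * p) = (p ^ C * (N - 1) ^ p) ^ p := by
        rw [mul_pow, ← pow_mul (N - 1) p p]
    _ < (N ^ p) ^ p := Nat.pow_lt_pow_left h3 (by omega)
    _ = N ^ (p * p) := by rw [← pow_mul]

theorem main1 : ¬ Q1Statement := by
  intro hQ
  obtain ⟨C, hC, hQ⟩ := hQ (1/4) (by norm_num)
  have hN : 1 ≤ Fintype.card (Tau C) := by
    have h : C + 1 ≤ (univ : Finset (Fin (2 * C + 2))).card := by
      rw [Finset.card_univ, Fintype.card_fin]; omega
    obtain ⟨T, _, hT⟩ := Finset.exists_subset_card_eq h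
    exact Fintype.card_pos_iff.mpr ⟨⟨T, hT⟩⟩
  obtain ⟨p0, hp0⟩ := ineq C (Fintype.card (Tau C)) hN
  obtain ⟨p, hpge, hpp⟩ := Nat.exists_infinite_primes (max p0 (2 * (2 * C + 2)))
  have : Fact p.Prime := ⟨hpp⟩
  have hp1 : p0 ≤ p := (le_max_left _ _).trans hpge
  have hp2 : 2 * (2 * C + 2) ≤ p := (le_max_right _ _).trans hpge
  obtain ⟨ω, hω⟩ := exists_omega (C := C) (p := p) (hp0 p hp1 hpp.pos)
  obtain ⟨S, hS⟩ := hQ (ZMod p × ZMod p) (ZMod p ⊕ (ZMod p × ZMod p)) (fam C ω) (by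
    intro k
    have hsq : Real.sqrt (Fintype.card (ZMod p × ZMod p)) = p := by
      rw [Fintype.card_prod, ZMod.card, Nat.cast_mul, Real.sqrt_mul_self (Nat.cast_nonneg p)]
    rw [hsq]
    have hpos : (0 : ℝ) < p := by exact_mod_cast hpp.pos
    rcases k with x | l
    · change 1 / 4 * (p : ℝ) < ((vert x).card : ℝ)
      rw [card_vert]; linarith
    · change 1 / 4 * (p : ℝ) < ((lset C l (ω l)).card : ℝ)
      have h1 := card_lset (C := C) hp2 l (ω l)
      have h2 : (p : ℝ) < 4 * ((lset C l (ω l)).card : ℝ) := by exact_mod_cast h1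
      linarith) (fun k l hkl => by
        have := pairwise ω k l hkl
        convert this)
  obtain ⟨s, hs⟩ := exists_code (C := C) S (fun x => by
    have := hS (Sum.inl x)
    simp only [fam] at this
    convert this)
  obtain ⟨l, hl⟩ := hω s
  apply hl
  rw [hs]
  have := hS (Sum.inr l)
  simp only [fam] at this
  convert this

theorem main2 : ¬ Q2Statement := by
  intro hQ
  apply main1
  intro c₁ hc₁
  obtain ⟨C, hC, h⟩ := hQ c₁ hc₁ 1 one_pos
  refine ⟨C, hC, fun X ι _ _ _ A h1 h2 => h X ι A h1 (fun k l hkl => ?_)⟩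
  exact_mod_cast h2 k l hkl

end Pool.Agent.H1.BT
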